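import Pool.Agent.T9h72.Fish.Link
import Pool.Agent.T9h72.Fish.C3
import Pool.Agent.T9h67.Fish.C4
import Pool.Agent.T9h67.Fish.D1
import Pool.Agent.T9h77.Fish.C1

set_option autoImplicit false

/-!
# Fishburn permutations avoiding `3214`, `4132`, `4213` are equinumerous

The Fishburn permutations avoiding `4132` and those avoiding `4213` are generated by insertion of the
maximum; the inverses of those avoiding `3214` also are. This gives three generating trees with
explicit states. For each tree a catalytic generating function `Y` satisfies the same algebraic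
equation

`(1 - x)(1 - z) Y² - Y ((1 - x) + (z/x) Z (1 - z - x + x²)) + (1 - x)(z/x) Z = 0`,

where `Z = 1 + x f` and `f` is the generating function of the nodes of the tree (`z` is a free
catalytic variable in two cases and an explicit series in the third one), and `Y = Z` at `z = x`. A
uniqueness argument (division by `1 - z/x`) gives the equality of the three series `Z`.
-/

namespace Pool.Agent.Results.MP_e853da_co.FishburnWilfTriple

/-- `π` contains the classical pattern `σ`: some subsequence of `π` is order-isomorphic to `σ`. -/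
def Contains {k n : ℕ} (π : Equiv.Perm (Fin n)) (σ : Equiv.Perm (Fin k)) : Prop :=
  ∃ f : Fin k ↪o Fin n, ∀ a b : Fin k, σ a < σ b ↔ π (f a) < π (f b)

/-- `π` is a Fishburn permutation: there are no indices `i` and `j > i + 1` with
`π(j) + 1 = π(i) < π(i+1)`. -/
def IsFishburn {n : ℕ} (π : Equiv.Perm (Fin n)) : Prop :=
  ¬ ∃ (i j : Fin n) (h : (i : ℕ) + 1 < n), (i : ℕ) + 1 < j ∧ (π j : ℕ) + 1 = π i ∧
    π i < π ⟨(i : ℕ) + 1, h⟩

/-- The set of the Fishburn permutations of size `n` which avoid `σ`. -/
def F (n : ℕ) {k : ℕ} (σ : Equiv.Perm (Fin k)) : Set (Equiv.Perm (Fin n)) :=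
  {π | IsFishburn π ∧ ¬ Contains π σ}

/-- The pattern `3214` (with values `0, …, 3`). -/
def p3214 : Equiv.Perm (Fin 4) := ⟨![2, 1, 0, 3], ![2, 1, 0, 3], by decide, by decide⟩

/-- The pattern `4132` (with values `0, …, 3`). -/
def p4132 : Equiv.Perm (Fin 4) := ⟨![3, 0, 2, 1], ![1, 3, 2, 0], by decide, by decide⟩

/-- The pattern `4213` (with values `0, …, 3`). -/
def p4213 : Equiv.Perm (Fin 4) := ⟨![3, 1, 0, 2], ![2, 1, 3, 0], by decide, by decide⟩

/-- **Gil–Weiner**: for every `n`, the numbers of the Fishburn permutations of size `n` which avoid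
`3214`, which avoid `4132`, and which avoid `4213` are equal. -/
theorem result (n : ℕ) : (F n p3214).ncard = (F n p4132).ncard ∧
    (F n p4132).ncard = (F n p4213).ncard := by
  cases n with
  | zero =>
    have h : ∀ σ : Equiv.Perm (Fin 4), F 0 σ = Set.univ := by
      intro σ
      ext π
      simp only [F, Set.mem_ofPred_eq, Set.mem_univ, iff_true]
      constructor
      · rintro ⟨i, _⟩
        exact i.elim0
      · rintro ⟨f, _⟩
        exact (f 0).elim0
    rw [h, h, h]
    exact ⟨rfl, rfl⟩
  | succ n =>
    obtain ⟨h1, h2, h3⟩ := Pool.Agent.T9h72.Fish.transl (n + 1)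
    have e1 : (F (n + 1) p3214).ncard = Pool.Agent.T9h72.Fish.cnt Pool.Agent.T9h72.Fish.ch1 n
        ([], 0) := h1.trans (Pool.Agent.T9h72.Fish.card1 n)
    have e2 : (F (n + 1) p4132).ncard = Pool.Agent.T9h72.Fish.cnt Pool.Agent.T9h72.Fish.ch3 n
        (0, [true]) := h2.trans (Pool.Agent.T9h72.Fish.card3 n)
    have e3 : (F (n + 1) p4213).ncard = Pool.Agent.T9h72.Fish.cnt Pool.Agent.T9h72.Fish.ch4 n
        (1, true, []) := h3.trans (Pool.Agent.T9h67.Fish.card4 n)
    have h4 := Pool.Agent.T9h72.Fish.cnt_eq n
    rw [e1, e2, e3]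
    exact h4

end Pool.Agent.Results.MP_e853da_co.FishburnWilfTriple
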